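import Pool.Agent.KT3.StmtsA

/-!
# KT3 squad, row LFM: moves in the leaf
-/

set_option autoImplicit false

open Matrix Filter Topology

namespace Pool.Agent.KT3.H98

open Pool.Agent.PFS Pool.Agent.PFJ Pool.Agent.NBT Pool.Agent.KT3

theorem lfm (stx : StxStmt) (phu : PhuStmt) : LfmStmt := by
  intro n C Γ d h w hW
  have hC : PCone C := h.toHI.toHK.toCC.toPCone
  have hcl : ∀ i, w i ∈ closure C := fun i => hW.pes.1.cl i
  obtain ⟨s1, s2, s3, s4⟩ := stx n C Γ 3 h.toHI.toHK w hW.pes 0 1 (by decide) (BI C w I01) hW.box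
  have hlin : LinearIndependent ℝ w := Pool.Agent.PFS.H60.lin n C hC (Fin 3) w hW.pes.1
  have hm0 : w 0 ∈ BI C w I01 := hW.box.mem 0 (by decide)
  have hm1 : w 1 ∈ BI C w I01 := hW.box.mem 1 (by decide)
  have hne1 : w 1 ≠ 0 := hlin.ne_zero 1
  have hne : ∀ c : ℝ, w 0 ≠ c • w 1 := by
    intro c hc
    have h1 := Fintype.linearIndependent_iff.1 hlin ![1, -c, 0] (by
      rw [Fin.sum_univ_three]
      simp [hc]) 0
    simp at h1
  refine ⟨⟨hm0, hcl 0, s3, hne⟩, fun x hx => ?_⟩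
  obtain ⟨t1, t2, t3⟩ := s1 x hx.mem (w 1) hm1 hx.cl (hcl 1) (ind2_of_ne hne1 hx.ne) hx.non s4
  have e1 : up w x 1 = w 1 := Function.update_of_ne (by decide) _ _
  have e0 : up w x 0 = x := Function.update_self _ _ _
  have hup : Function.update (Function.update w 0 x) 1 (w 1) = up w x := by
    rw [← e1]
    exact Function.update_eq_self 1 (up w x)
  rw [hup] at t2 t3
  have hBI : BI C (up w x) I01 = BI C w I01 := by
    have h1 : fS (up w x) I01 = x + w 1 := by
      rw [fS_pair _ (by decide), e0, e1]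
    have h2 := (fcs n C hC (fS w I01) (fS_cl hC hcl I01)).2.2.2.2 (x + w 1) t1
    unfold BI
    rw [h1]
    exact h2
  refine ⟨⟨t2, by rw [hBI]; exact hW.dim, by rw [hBI]; exact t3⟩, hBI, fun y => ?_,
    s2 x hx.mem hx.cl hx.non, ?_, t1, fun φ hφ => ?_⟩
  · constructor
    · intro hy
      exact ⟨hBI ▸ hy.mem, hy.cl, fun hu => hy.non (by rw [hBI]; exact hu),
        fun c hc => hy.ne c (by rw [e1]; exact hc)⟩
    · intro hy
      refine ⟨by rw [hBI]; exact hy.mem, hy.cl, fun hu => hy.non (by rw [hBI] at hu; exact hu),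
        fun c hc => hy.ne c (by rw [e1] at hc; exact hc)⟩
  · have h1 := t2.2 0
    rw [e0] at h1
    exact h1
  · have h1 := (phu n C Γ 3 h.toHI.toHK w hW.pes 0 φ hφ).2.2.2.2 (up w x) t2
      (fun j hj => Function.update_of_ne hj _ _)
    rw [e0] at h1
    exact h1

end Pool.Agent.KT3.H98
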